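import Mathlib
import Pool.Agent.Lib.MP_54f1ce_nt.HalfSum

namespace Pool.Agent.Results.MP_54f1ce_nt.CaoInequality

/-- Value of the finite continued fraction with partial quotients `c₁, …, c_k`. -/
def cfVal : List ℕ → ℚ
  | [] => 0
  | [c] => c
  | c :: d :: l => c + 1 / cfVal (d :: l)

/-- `l = [c₁, …, c_k]` is the finite simple continued fraction expansion of `p / n`
with positive integer partial quotients and last partial quotient `> 1`. -/
def IsExpansion (p n : ℕ) (l : List ℕ) : Prop :=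
  l ≠ [] ∧ (∀ c ∈ l, 0 < c) ∧ (∀ c ∈ l.getLast?, 1 < c) ∧ cfVal l = (p : ℚ) / n

open Classical in
/-- The set `M_p` of all `0 < n < p` with `(n/p) = (-1)^λ(n)`, where `λ(n)` is the length of the
continued fraction expansion of `p / n`. -/
noncomputable def setM (p : ℕ) : Finset ℕ :=
  (Finset.Ioo 0 p).filter fun n =>
    ∃ l : List ℕ, IsExpansion p n l ∧ jacobiSym n p = (-1) ^ l.length

open Classical in
/-- The set `M̄_p` of all `0 < n < p` with `(n/p) = (-1)^(λ(n)+1)`. -/
noncomputable def setMbar (p : ℕ) : Finset ℕ :=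
  (Finset.Ioo 0 p).filter fun n =>
    ∃ l : List ℕ, IsExpansion p n l ∧ jacobiSym n p = (-1) ^ (l.length + 1)

/-- product of the matrices `[[c,1],[1,0]]`. -/
def mat : List ℕ → Matrix (Fin 2) (Fin 2) ℤ
  | [] => 1
  | c :: l => !![(c : ℤ), 1; 1, 0] * mat l

lemma mat_cons_00 (c : ℕ) (l : List ℕ) : mat (c :: l) 0 0 = c * mat l 0 0 + mat l 1 0 := by
  simp [mat, Matrix.mul_apply, Fin.sum_univ_two]

lemma mat_cons_10 (c : ℕ) (l : List ℕ) : mat (c :: l) 1 0 = mat l 0 0 := by
  simp [mat, Matrix.mul_apply, Fin.sum_univ_two]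

lemma mat_append (l l' : List ℕ) : mat (l ++ l') = mat l * mat l' := by
  induction l with
  | nil => simp [mat]
  | cons c l ih => simp [mat, ih, Matrix.mul_assoc]

lemma mat_reverse (l : List ℕ) : mat l.reverse = (mat l).transpose := by
  induction l with
  | nil => simp [mat]
  | cons c l ih =>
    rw [List.reverse_cons, mat_append, ih]
    simp only [mat, Matrix.transpose_mul, mul_one]
    congr 1
    ext i j
    fin_cases i <;> fin_cases j <;> simp

lemma det_mat (l : List ℕ) : (mat l).det = (-1) ^ l.length := by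
  induction l with
  | nil => simp [mat]
  | cons c l ih =>
    simp only [mat, Matrix.det_mul, ih, Matrix.det_fin_two_of, List.length_cons]
    ring

lemma mat_pos (l : List ℕ) (hl : ∀ c ∈ l, 0 < c) :
    0 < mat l 0 0 ∧ 0 ≤ mat l 1 0 ∧ mat l 1 0 ≤ mat l 0 0 ∧ (l ≠ [] → 0 < mat l 1 0) := by
  induction l with
  | nil => simp [mat]
  | cons c l ih =>
    have h1 := ih (fun x hx => hl x (List.mem_cons_of_mem _ hx))
    have hc : 0 < c := hl c (List.mem_cons_self)
    have hc' : (1 : ℤ) ≤ c := by exact_mod_cast hc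
    rw [mat_cons_00, mat_cons_10]
    refine ⟨?_, h1.1.le, ?_, fun _ => h1.1⟩
    · nlinarith [h1.1, h1.2.1]
    · nlinarith [h1.1, h1.2.1]

lemma cfVal_eq (l : List ℕ) (hne : l ≠ []) (hl : ∀ c ∈ l, 0 < c) :
    cfVal l = (mat l 0 0 : ℚ) / (mat l 1 0 : ℚ) := by
  induction l with
  | nil => exact absurd rfl hne
  | cons c l ih =>
    rcases l with _ | ⟨d, l⟩
    · simp [cfVal, mat]
    · have h1 := ih (by simp) (fun x hx => hl x (List.mem_cons_of_mem _ hx))
      have h2 := mat_pos (d :: l) (fun x hx => hl x (List.mem_cons_of_mem _ hx))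
      rw [mat_cons_00 c, mat_cons_10 c, cfVal, h1]
      have h3 : (0 : ℚ) < (mat (d :: l) 0 0 : ℚ) := by exact_mod_cast h2.1
      have h4 : (0 : ℚ) < (mat (d :: l) 1 0 : ℚ) := by exact_mod_cast h2.2.2.2 (by simp)
      push_cast
      field_simp

/-- valid lists -/
def Valid (l : List ℕ) : Prop := l ≠ [] ∧ (∀ c ∈ l, 0 < c) ∧ (∀ c ∈ l.getLast?, 1 < c)

lemma Valid.tail {c d : ℕ} {l : List ℕ} (h : Valid (c :: d :: l)) : Valid (d :: l) := by
  refine ⟨by simp, fun x hx => h.2.1 x (List.mem_cons_of_mem _ hx), ?_⟩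
  intro x hx
  apply h.2.2 x
  simpa [List.getLast?_cons_cons] using hx

lemma valid_lt (l : List ℕ) (h : Valid l) : 0 < mat l 1 0 ∧ mat l 1 0 < mat l 0 0 := by
  induction l with
  | nil => exact absurd rfl h.1
  | cons c l ih =>
    rcases l with _ | ⟨d, l⟩
    · have h1 := h.2.2 c (by simp)
      simp only [mat, mul_one]
      simp
      exact_mod_cast h1
    · have h1 := ih h.tail
      have hc : (1 : ℤ) ≤ c := by exact_mod_cast h.2.1 c (by simp)
      rw [mat_cons_00, mat_cons_10]
      constructor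
      · linarith [h1.1, h1.2]
      · nlinarith [h1.1, h1.2]

lemma coprime_mat (l : List ℕ) : IsCoprime (mat l 0 0) (mat l 1 0) := by
  have h := det_mat l
  rw [Matrix.det_fin_two] at h
  refine ⟨(-1) ^ l.length * mat l 1 1, -((-1) ^ l.length * mat l 0 1), ?_⟩
  have h2 : ((-1 : ℤ) ^ l.length) * (-1) ^ l.length = 1 := by
    rw [← mul_pow]; simp
  calc _ = (-1) ^ l.length * (mat l 0 0 * mat l 1 1 - mat l 0 1 * mat l 1 0) := by ring
    _ = 1 := by rw [h, h2]

lemma expansion_iff {p n : ℕ} (hn : 0 < n) (hpn : Nat.Coprime p n) (l : List ℕ) :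
    IsExpansion p n l ↔ Valid l ∧ mat l 0 0 = p ∧ mat l 1 0 = n := by
  constructor
  · rintro ⟨h1, h2, h3, h4⟩
    refine ⟨⟨h1, h2, h3⟩, ?_⟩
    rw [cfVal_eq l h1 h2] at h4
    have h5 := mat_pos l h2
    have h6 : ((mat l 0 0 : ℤ) : ℚ) / ((mat l 1 0 : ℤ) : ℚ) = ((p : ℤ) : ℚ) / ((n : ℤ) : ℚ) := by
      rw [h4]; simp
    exact Rat.div_int_inj (h5.2.2.2 h1) (by exact_mod_cast hn)
      (Int.isCoprime_iff_gcd_eq_one.mp (coprime_mat l)) (by simpa using hpn) h6
  · rintro ⟨⟨h1, h2, h3⟩, h4, h5⟩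
    refine ⟨h1, h2, h3, ?_⟩
    rw [cfVal_eq l h1 h2, h4, h5]
    simp

lemma valid_unique (l l' : List ℕ) (h : Valid l) (h' : Valid l')
    (h0 : mat l 0 0 = mat l' 0 0) (h1 : mat l 1 0 = mat l' 1 0) : l = l' := by
  induction l generalizing l' with
  | nil => exact absurd rfl h.1
  | cons c l ih =>
    rcases l' with _ | ⟨c', l'⟩
    · exact absurd rfl h'.1
    rw [mat_cons_00, mat_cons_00] at h0
    rw [mat_cons_10, mat_cons_10] at h1
    rcases l with _ | ⟨d, l⟩
    · rcases l' with _ | ⟨d', l'⟩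
      · simp [mat] at h0
        rw [h0]
      · have := valid_lt _ h'.tail
        have e : mat [] 0 0 = 1 := by simp [mat]
        rw [e] at h1
        omega
    · rcases l' with _ | ⟨d', l'⟩
      · have := valid_lt _ h.tail
        have e : mat [] 0 0 = 1 := by simp [mat]
        rw [e] at h1
        omega
      · have a1 := valid_lt _ h.tail
        have a2 := valid_lt _ h'.tail
        rw [h1] at h0 a1
        have key : (c : ℤ) = c' := by
          set P := mat (d' :: l') 0 0
          set Q := mat (d :: l) 1 0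
          set Q' := mat (d' :: l') 1 0
          by_contra hne
          rcases lt_or_gt_of_ne hne with hlt | hlt
          · have : (c : ℤ) + 1 ≤ c' := hlt
            nlinarith [a1.1, a1.2, a2.1, a2.2]
          · have : (c' : ℤ) + 1 ≤ c := hlt
            nlinarith [a1.1, a1.2, a2.1, a2.2]
        have h2 : mat (d :: l) 1 0 = mat (d' :: l') 1 0 := by
          rw [key] at h0
          linarith
        rw [ih _ h.tail h'.tail h1 h2]
        have : c = c' := by exact_mod_cast key
        rw [this]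

lemma valid_exists (n : ℕ) : ∀ p : ℕ, 0 < n → n < p → Nat.Coprime p n →
    ∃ l, Valid l ∧ mat l 0 0 = p ∧ mat l 1 0 = n := by
  induction n using Nat.strong_induction_on with
  | _ n ih =>
    intro p hn hp hc
    rcases Nat.eq_or_lt_of_le (Nat.succ_le_of_lt hn) with h1 | h1
    · refine ⟨[p], ⟨by simp, ?_, ?_⟩, ?_, ?_⟩
      · intro c hc; simp at hc; omega
      · intro c hc; simp at hc; omega
      · simp [mat]
      · simp [mat, ← h1]
    · have hr : 0 < p % n := by
        rw [Nat.pos_iff_ne_zero]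
        intro h0
        have : n ∣ p := Nat.dvd_of_mod_eq_zero h0
        have := Nat.Coprime.eq_one_of_dvd hc.symm this
        omega
      obtain ⟨l, hl, h2, h3⟩ := ih (p % n) (Nat.mod_lt _ hn) n hr (Nat.mod_lt _ hn)
        ((Nat.gcd_comm n (p % n)).trans ((Nat.gcd_rec n p).symm.trans
          ((Nat.gcd_comm n p).trans hc)))
      refine ⟨(p / n) :: l, ⟨by simp, ?_, ?_⟩, ?_, ?_⟩
      · intro c hc
        rcases List.mem_cons.mp hc with rfl | hc
        · exact Nat.div_pos hp.le hn
        · exact hl.2.1 c hc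
      · intro c hc
        rcases l with _ | ⟨d, l⟩
        · exact absurd rfl hl.1
        · exact hl.2.2 c (by simpa [List.getLast?_cons_cons] using hc)
      · rw [mat_cons_00, h2, h3]
        exact_mod_cast (by rw [mul_comm]; exact Nat.div_add_mod p n)
      · rw [mat_cons_10, h2]


lemma valid_reverse {l : List ℕ} (h : Valid l) (h2 : ∀ c ∈ l.head?, 1 < c) : Valid l.reverse := by
  refine ⟨by simpa using h.1, fun c hc => h.2.1 c (by simpa using hc), ?_⟩
  intro c hc
  rw [List.getLast?_reverse] at hc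
  exact h2 c hc

/-- For `2 n < p`, first partial quotient is at least 2. -/
lemma head_of_two_mul_le {l : List ℕ} (h : Valid l) (h2 : 2 * mat l 1 0 < mat l 0 0) :
    ∀ c ∈ l.head?, 1 < c := by
  rcases l with _ | ⟨c, l⟩
  · exact absurd rfl h.1
  intro x hx
  simp at hx
  subst hx
  rw [mat_cons_00, mat_cons_10] at h2
  have h3 := mat_pos l (fun x hx => h.2.1 x (List.mem_cons_of_mem _ hx))
  by_contra hc
  have hc0 := h.2.1 c (by simp)
  have : c = 1 := by omega
  rw [this] at h2
  push_cast at h2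
  linarith [h3.2.2.1]

lemma two_mul_le_of_head {l : List ℕ} (h : Valid l) (h2 : ∀ c ∈ l.head?, 1 < c) :
    2 * mat l 1 0 ≤ mat l 0 0 := by
  rcases l with _ | ⟨c, l⟩
  · exact absurd rfl h.1
  have hc := h2 c (by simp)
  rw [mat_cons_00, mat_cons_10]
  have h3 := mat_pos l (fun x hx => h.2.1 x (List.mem_cons_of_mem _ hx))
  have : (2 : ℤ) ≤ c := by exact_mod_cast hc
  nlinarith [h3.1, h3.2.1]

/-- The chosen expansion. -/
noncomputable def L (p n : ℕ) : List ℕ :=
  open Classical in if h : ∃ l, Valid l ∧ mat l 0 0 = p ∧ mat l 1 0 = n then h.choose else []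

lemma L_spec {p n : ℕ} (hn : 0 < n) (hp : n < p) (hc : Nat.Coprime p n) :
    Valid (L p n) ∧ mat (L p n) 0 0 = p ∧ mat (L p n) 1 0 = n := by
  have h := valid_exists n p hn hp hc
  rw [L, dif_pos h]
  exact h.choose_spec

lemma L_unique {p n : ℕ} (hn : 0 < n) (hp : n < p) (hc : Nat.Coprime p n) {l : List ℕ}
    (hl : Valid l ∧ mat l 0 0 = p ∧ mat l 1 0 = n) : l = L p n := by
  have h := L_spec hn hp hc
  exact valid_unique _ _ hl.1 h.1 (by rw [hl.2.1, h.2.1]) (by rw [hl.2.2, h.2.2])

/-- reversal -/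
noncomputable def rev (p n : ℕ) : ℕ := (mat (L p n) 0 1).toNat

lemma rev_spec {p n : ℕ} (hodd : p % 2 = 1) (hn : 0 < n) (hp : 2 * n < p) (hc : Nat.Coprime p n) :
    0 < rev p n ∧ 2 * rev p n < p ∧ Nat.Coprime p (rev p n) ∧
      L p (rev p n) = (L p n).reverse ∧ rev p (rev p n) = n := by
  have hnp : n < p := by omega
  have h := L_spec hn hnp hc
  have hhead := head_of_two_mul_le h.1 (by rw [h.2.1, h.2.2]; exact_mod_cast hp)
  have hv := valid_reverse h.1 hhead
  have hm := mat_reverse (L p n)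
  have e1 : mat (L p n).reverse 0 0 = p := by rw [hm, Matrix.transpose_apply, h.2.1]
  have e2 : mat (L p n).reverse 1 0 = mat (L p n) 0 1 := by rw [hm, Matrix.transpose_apply]
  have hpos := (valid_lt _ hv)
  have hrev : ((rev p n : ℕ) : ℤ) = mat (L p n) 0 1 := by
    rw [rev, Int.toNat_of_nonneg]
    rw [← e2]; exact hpos.1.le
  have e2' : mat (L p n).reverse 1 0 = ((rev p n : ℕ) : ℤ) := by rw [e2, hrev]
  have hpos1 : 0 < rev p n := by
    have := hpos.1
    rw [e2'] at this
    exact_mod_cast this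
  have hheadrev : ∀ c ∈ (L p n).reverse.head?, 1 < c := by
    intro c hc
    rw [List.head?_reverse] at hc
    exact h.1.2.2 c hc
  have hle := two_mul_le_of_head hv hheadrev
  rw [e1, e2'] at hle
  have hle' : 2 * rev p n ≤ p := by exact_mod_cast hle
  have hlt : 2 * rev p n < p := by omega
  have hcop : Nat.Coprime p (rev p n) := by
    have := coprime_mat (L p n).reverse
    rw [e1, e2'] at this
    exact Nat.isCoprime_iff_coprime.mp this
  have hL : L p (rev p n) = (L p n).reverse :=
    (L_unique hpos1 (by omega) hcop ⟨hv, e1, e2'⟩).symm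
  refine ⟨hpos1, hlt, hcop, hL, ?_⟩
  rw [rev, hL, hm, Matrix.transpose_apply, h.2.2]
  simp

lemma jacobi_rev {p n : ℕ} (h4 : p % 4 = 3) (hn : 0 < n) (hp : 2 * n < p)
    (hc : Nat.Coprime p n) :
    jacobiSym n p * jacobiSym (rev p n) p = (-1) ^ ((L p n).length + 1) := by
  have hodd : p % 2 = 1 := by omega
  have hnp : n < p := by omega
  have h := L_spec hn hnp hc
  have hr := rev_spec hodd hn hp hc
  have hm := mat_reverse (L p n)
  have hr2 := L_spec hr.1 (by omega) hr.2.2.1
  rw [hr.2.2.2.1] at hr2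
  have e2' : mat (L p n) 0 1 = ((rev p n : ℕ) : ℤ) := by
    rw [← hr2.2.2, hm, Matrix.transpose_apply]
  have hdet := det_mat (L p n)
  rw [Matrix.det_fin_two, h.2.1, h.2.2, e2'] at hdet
  rw [← jacobiSym.mul_left]
  have h1 : ((n : ℤ) * (rev p n : ℕ)) % p = (-(-1) ^ (L p n).length) % p := by
    rw [← hdet]
    rw [show -((p : ℤ) * mat (L p n) 1 1 - (rev p n : ℕ) * n) =
      n * (rev p n : ℕ) + p * (-mat (L p n) 1 1) by ring]
    rw [Int.add_mul_emod_self_left]
  rw [jacobiSym.mod_left, h1, ← jacobiSym.mod_left]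
  have h2 : jacobiSym (-1) p = -1 := by
    rw [jacobiSym.at_neg_one (Nat.odd_iff.mpr hodd), ZMod.χ₄_nat_three_mod_four h4]
  rw [show (-(-1 : ℤ) ^ (L p n).length) = (-1) ^ ((L p n).length + 1) by ring]
  rw [jacobiSym.pow_left, h2]


lemma coprime_of_jacobi {p n : ℕ} (hp : 0 < p) (h : jacobiSym n p ≠ 0) : Nat.Coprime p n := by
  have : NeZero p := ⟨hp.ne'⟩
  by_contra hc
  apply h
  rw [jacobiSym.eq_zero_iff_not_coprime]
  rw [Int.gcd_natCast_natCast]
  exact fun h' => hc ((Nat.gcd_comm p n).trans h')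

lemma neg_one_pow_ne_zero (k : ℕ) : ((-1 : ℤ)) ^ k ≠ 0 := pow_ne_zero _ (by norm_num)

lemma neg_one_pow_sq (k : ℕ) : ((-1 : ℤ)) ^ k * (-1) ^ k = 1 := by rw [← mul_pow]; simp

open Classical in
/-- common form of `setM` and `setMbar`. -/
noncomputable def setG (p e : ℕ) : Finset ℕ :=
  (Finset.Ioo 0 p).filter fun n =>
    ∃ l : List ℕ, IsExpansion p n l ∧ jacobiSym n p = (-1) ^ (l.length + e)

/-- the half sets -/
def setA (p : ℕ) (s : ℤ) : Finset ℕ :=
  (Finset.Ioo 0 p).filter fun n => 2 * n < p ∧ jacobiSym n p = s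

lemma mem_setG {p e n : ℕ} : n ∈ setG p e ↔ 0 < n ∧ n < p ∧ Nat.Coprime p n ∧
    jacobiSym n p = (-1) ^ ((L p n).length + e) := by
  simp only [setG, Finset.mem_filter, Finset.mem_Ioo]
  constructor
  · rintro ⟨⟨h0, h1⟩, l, hl, hj⟩
    have hc : Nat.Coprime p n := coprime_of_jacobi (by omega) (by rw [hj]; exact neg_one_pow_ne_zero _)
    refine ⟨h0, h1, hc, ?_⟩
    rw [expansion_iff h0 hc] at hl
    rw [← L_unique h0 h1 hc hl, hj]
  · rintro ⟨h0, h1, hc, hj⟩
    refine ⟨⟨h0, h1⟩, L p n, ?_, hj⟩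
    rw [expansion_iff h0 hc]
    exact L_spec h0 h1 hc

lemma jacobi_sub {p n : ℕ} (h4 : p % 4 = 3) (hp : n ≤ p) :
    jacobiSym ((p - n : ℕ) : ℤ) p = - jacobiSym n p := by
  have hodd : p % 2 = 1 := by omega
  have h1 : (((p - n : ℕ) : ℤ)) % p = (-(n : ℤ)) % p := by
    rw [Nat.cast_sub hp, show ((p : ℤ) - n) = -(n : ℤ) + p * 1 by ring, Int.add_mul_emod_self_left]
  rw [jacobiSym.mod_left, h1, ← jacobiSym.mod_left, jacobiSym.neg _ (Nat.odd_iff.mpr hodd),
    ZMod.χ₄_nat_three_mod_four h4]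
  ring

lemma L_sub {p n : ℕ} (hp3 : 3 < p) (hodd : p % 2 = 1) (hn : 0 < n) (hp : 2 * n < p)
    (hc : Nat.Coprime p n) : (L p (p - n)).length = (L p n).length + 1 := by
  have hnp : n < p := by omega
  have h := L_spec hn hnp hc
  have hhead := head_of_two_mul_le h.1 (by rw [h.2.1, h.2.2]; exact_mod_cast hp)
  have hc2 : Nat.Coprime p (p - n) := (Nat.coprime_self_sub_right hnp.le).mpr hc
  rcases hL : L p n with _ | ⟨c, t⟩
  · exact absurd hL h.1.1
  · rw [hL] at h hhead
    have hcc : 1 < c := hhead c (by simp)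
    have h00 := h.2.1
    have h10 := h.2.2
    rw [mat_cons_00] at h00
    rw [mat_cons_10] at h10
    have key : (1 :: (c - 1) :: t) = L p (p - n) := by
      apply L_unique (by omega) (by omega) hc2
      refine ⟨⟨by simp, ?_, ?_⟩, ?_, ?_⟩
      · intro x hx
        simp only [List.mem_cons] at hx
        rcases hx with rfl | rfl | hx
        · omega
        · omega
        · exact h.1.2.1 x (List.mem_cons_of_mem _ hx)
      · rcases t with _ | ⟨d, t⟩
        · intro x hx
          simp at hx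
          subst hx
          simp [mat] at h00
          omega
        · intro x hx
          apply h.1.2.2 x
          simpa [List.getLast?_cons_cons] using hx
      · rw [mat_cons_00, mat_cons_00, mat_cons_10]
        push_cast [Nat.cast_sub hcc.le]
        linarith
      · rw [mat_cons_10, mat_cons_00]
        rw [Nat.cast_sub hcc.le, Nat.cast_sub hnp.le]
        push_cast
        linarith
    rw [← key]
    simp

lemma card_half {p e : ℕ} (h4 : p % 4 = 3) :
    ((setG p e).filter (fun n => 2 * n < p)).card = (setA p ((-1) ^ (e + 1))).card := by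
  have hodd : p % 2 = 1 := by omega
  apply Finset.card_nbij' (rev p) (rev p)
  · intro n hn
    simp only [Finset.coe_filter, Set.mem_ofPred_eq, mem_setG] at hn
    obtain ⟨⟨h0, h1, hc, hj⟩, h2⟩ := hn
    have hr := rev_spec hodd h0 h2 hc
    have hjr := jacobi_rev h4 h0 h2 hc
    simp only [setA, Finset.coe_filter, Set.mem_ofPred_eq, Finset.mem_Ioo]
    refine ⟨⟨hr.1, by omega⟩, hr.2.1, ?_⟩
    have h3 : jacobiSym n p * jacobiSym n p = 1 := by rw [hj]; exact neg_one_pow_sq _
    calc jacobiSym (rev p n : ℕ) p = (jacobiSym n p * jacobiSym n p) * jacobiSym (rev p n) p := by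
          rw [h3, one_mul]
      _ = jacobiSym n p * (jacobiSym n p * jacobiSym (rev p n) p) := by ring
      _ = (-1) ^ (e + 1) * ((-1) ^ (L p n).length * (-1) ^ (L p n).length) := by
          rw [hjr, hj]; ring
      _ = (-1) ^ (e + 1) := by rw [neg_one_pow_sq, mul_one]
  · intro n hn
    simp only [setA, Finset.coe_filter, Set.mem_ofPred_eq, Finset.mem_Ioo] at hn
    obtain ⟨⟨h0, h1⟩, h2, hj⟩ := hn
    have hc : Nat.Coprime p n :=
      coprime_of_jacobi (by omega) (by rw [hj]; exact neg_one_pow_ne_zero _)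
    have hr := rev_spec hodd h0 h2 hc
    have hjr := jacobi_rev h4 h0 h2 hc
    simp only [Finset.coe_filter, Set.mem_ofPred_eq, mem_setG]
    refine ⟨⟨hr.1, by omega, hr.2.2.1, ?_⟩, hr.2.1⟩
    rw [hr.2.2.2.1, List.length_reverse]
    have h3 : jacobiSym n p * jacobiSym n p = 1 := by rw [hj]; exact neg_one_pow_sq _
    calc jacobiSym (rev p n : ℕ) p = (jacobiSym n p * jacobiSym n p) * jacobiSym (rev p n) p := by
          rw [h3, one_mul]
      _ = jacobiSym n p * (jacobiSym n p * jacobiSym (rev p n) p) := by ring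
      _ = (-1) ^ ((L p n).length + e) * ((-1) ^ 1 * (-1) ^ 1) := by
          rw [hjr, hj]; ring
      _ = (-1) ^ ((L p n).length + e) := by rw [neg_one_pow_sq, mul_one]
  · intro n hn
    simp only [Finset.coe_filter, Set.mem_ofPred_eq, mem_setG] at hn
    obtain ⟨⟨h0, h1, hc, hj⟩, h2⟩ := hn
    exact (rev_spec hodd h0 h2 hc).2.2.2.2
  · intro n hn
    simp only [setA, Finset.coe_filter, Set.mem_ofPred_eq, Finset.mem_Ioo] at hn
    obtain ⟨⟨h0, h1⟩, h2, hj⟩ := hn
    have hc : Nat.Coprime p n :=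
      coprime_of_jacobi (by omega) (by rw [hj]; exact neg_one_pow_ne_zero _)
    exact (rev_spec hodd h0 h2 hc).2.2.2.2

lemma card_other {p e : ℕ} (hp3 : 3 < p) (h4 : p % 4 = 3) :
    ((setG p e).filter (fun n => ¬ 2 * n < p)).card =
      ((setG p e).filter (fun n => 2 * n < p)).card := by
  have hodd : p % 2 = 1 := by omega
  symm
  have key : ∀ n, 0 < n → 2 * n < p → Nat.Coprime p n →
      (jacobiSym (n : ℕ) p = (-1) ^ ((L p n).length + e) ↔
      jacobiSym ((p - n : ℕ) : ℤ) p = (-1) ^ ((L p (p - n)).length + e)) := by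
    intro n h0 h2 hc
    rw [L_sub hp3 hodd h0 h2 hc, jacobi_sub h4 (by omega),
      show (L p n).length + 1 + e = (L p n).length + e + 1 by ring, pow_succ]
    constructor
    · intro h; rw [h]; ring
    · intro h; linarith
  apply Finset.card_nbij' (fun n => p - n) (fun n => p - n)
  · intro n hn
    simp only [Finset.coe_filter, Set.mem_ofPred_eq, mem_setG] at hn ⊢
    obtain ⟨⟨h0, h1, hc, hj⟩, h2⟩ := hn
    refine ⟨⟨by omega, by omega, (Nat.coprime_self_sub_right h1.le).mpr hc, ?_⟩, by omega⟩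
    exact (key n h0 h2 hc).mp hj
  · intro n hn
    simp only [Finset.coe_filter, Set.mem_ofPred_eq, mem_setG] at hn ⊢
    obtain ⟨⟨h0, h1, hc, hj⟩, h2⟩ := hn
    have hc' : Nat.Coprime p (p - n) := (Nat.coprime_self_sub_right h1.le).mpr hc
    refine ⟨⟨by omega, by omega, hc', ?_⟩, by omega⟩
    apply (key (p - n) (by omega) (by omega) hc').mpr
    rw [show p - (p - n) = n by omega]
    exact hj
  · intro n hn
    simp only [Finset.coe_filter, Set.mem_ofPred_eq, mem_setG] at hn
    have := hn.1.2.1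
    show p - (p - n) = n
    omega
  · intro n hn
    simp only [Finset.coe_filter, Set.mem_ofPred_eq, mem_setG] at hn
    have := hn.1.2.1
    show p - (p - n) = n
    omega

lemma card_setG {p e : ℕ} (hp3 : 3 < p) (h4 : p % 4 = 3) :
    (setG p e).card = 2 * (setA p ((-1) ^ (e + 1))).card := by
  have h1 := card_half (e := e) h4
  have h2 := card_other (e := e) hp3 h4
  have h3 := Finset.card_filter_add_card_filter_not (s := setG p e) (fun n => 2 * n < p)
  omega

lemma card_setM {p : ℕ} (hp3 : 3 < p) (h4 : p % 4 = 3) :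
    (setM p).card = 2 * (setA p (-1)).card := by
  have h : setM p = setG p 0 := by
    ext n; simp [setM, setG]
  rw [h, card_setG hp3 h4]; simp

lemma card_setMbar {p : ℕ} (hp3 : 3 < p) (h4 : p % 4 = 3) :
    (setMbar p).card = 2 * (setA p 1).card := by
  have h : setMbar p = setG p 1 := by
    ext n; simp [setMbar, setG]
  rw [h, card_setG hp3 h4]; simp

lemma one_le_card_setA {p : ℕ} (hp3 : 3 < p) (h4 : p % 4 = 3) : 1 ≤ (setA p (-1)).card := by
  rw [Nat.one_le_iff_ne_zero, Finset.card_ne_zero]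
  have hodd : Odd p := Nat.odd_iff.mpr (by omega)
  rcases (show p % 8 = 3 ∨ p % 8 = 7 by omega) with h8 | h8
  · refine ⟨2, ?_⟩
    simp only [setA, Finset.mem_filter, Finset.mem_Ioo]
    refine ⟨by omega, by omega, ?_⟩
    have := jacobiSym.at_two hodd
    rw [ZMod.χ₈_nat_eq_if_mod_eight] at this
    rw [Nat.cast_ofNat, this]
    simp [h8, show p % 2 = 1 by omega]
  · refine ⟨(p - 1) / 2, ?_⟩
    simp only [setA, Finset.mem_filter, Finset.mem_Ioo]
    refine ⟨by omega, by omega, ?_⟩
    have h2 := jacobiSym.at_two hodd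
    rw [ZMod.χ₈_nat_eq_if_mod_eight] at h2
    simp only [h8, show ¬ p % 2 = 0 by omega] at h2
    have h3 : jacobiSym (2 * (((p - 1) / 2 : ℕ) : ℤ)) p = -1 := by
      have e : (2 * (((p - 1) / 2 : ℕ) : ℤ)) = ((p - 1 : ℕ) : ℤ) := by
        have : 2 * ((p - 1) / 2) = p - 1 := by omega
        exact_mod_cast this
      rw [e, jacobi_sub h4 (by omega)]
      simp
    rw [jacobiSym.mul_left] at h3
    norm_num at h2
    rw [h2, one_mul] at h3
    exact h3


lemma card_diff {p : ℕ} (h4 : p % 4 = 3) :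
    ((setA p 1).card : ℤ) - (setA p (-1)).card = Pool.Agent.Lib.MP_54f1ce_nt.halfSum p := by
  have h0 : jacobiSym ((0 : ℕ) : ℤ) p = 0 := by
    rw [Nat.cast_zero]; exact jacobiSym.zero_left (by omega)
  have h1 : Pool.Agent.Lib.MP_54f1ce_nt.halfSum p =
      ∑ n ∈ (Finset.Ioo 0 p).filter (fun n => 2 * n < p), jacobiSym n p := by
    rw [Pool.Agent.Lib.MP_54f1ce_nt.halfSum]
    symm
    apply Finset.sum_subset
    · intro n hn
      simp only [Finset.mem_filter, Finset.mem_Ioo, Finset.mem_range] at hn ⊢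
      omega
    · intro n hn hn2
      simp only [Finset.mem_filter, Finset.mem_Ioo, Finset.mem_range] at hn hn2
      have : n = 0 := by
        by_contra hne
        apply hn2
        omega
      rw [this, h0]
  have h2 : ∀ n ∈ (Finset.Ioo 0 p).filter (fun n => 2 * n < p), jacobiSym n p =
      (if jacobiSym n p = 1 then (1 : ℤ) else 0) - (if jacobiSym n p = -1 then (1 : ℤ) else 0) := by
    intro n _
    rcases jacobiSym.trichotomy n p with h | h | h <;> rw [h] <;> norm_num
  rw [h1, Finset.sum_congr rfl h2, Finset.sum_sub_distrib, ← Finset.sum_filter,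
    ← Finset.sum_filter, Finset.filter_filter, Finset.filter_filter]
  simp [setA]

/-- Existence and uniqueness of the expansion (a check of the definitions; not used below). -/
theorem expansion_existsUnique {p n : ℕ} (hn : 0 < n) (hp : n < p) :
    ∃! l, IsExpansion p n l := by
  obtain ⟨g, hg⟩ : ∃ g, g = Nat.gcd p n := ⟨_, rfl⟩
  have hg0 : 0 < g := hg ▸ Nat.gcd_pos_of_pos_right _ hn
  obtain ⟨a, ha⟩ : g ∣ p := hg ▸ Nat.gcd_dvd_left p n
  obtain ⟨b, hb⟩ : g ∣ n := hg ▸ Nat.gcd_dvd_right p n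
  have hb0 : 0 < b := by
    rcases Nat.eq_zero_or_pos b with h | h
    · subst h; omega
    · exact h
  have hab : b < a := by
    subst ha hb
    exact Nat.lt_of_mul_lt_mul_left hp
  have hc : Nat.Coprime a b := by
    have h := Nat.coprime_div_gcd_div_gcd (m := p) (n := n) (by rw [← hg]; exact hg0)
    rw [← hg] at h
    have e1 : p / g = a := by rw [ha]; exact Nat.mul_div_cancel_left a hg0
    have e2 : n / g = b := by rw [hb]; exact Nat.mul_div_cancel_left b hg0
    rwa [e1, e2] at h
  have hiff : ∀ l, IsExpansion p n l ↔ IsExpansion a b l := by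
    intro l
    have : (p : ℚ) / n = (a : ℚ) / b := by
      have hgQ : (g : ℚ) ≠ 0 := by exact_mod_cast hg0.ne'
      rw [ha, hb]
      push_cast
      exact mul_div_mul_left _ _ hgQ
    rw [IsExpansion, IsExpansion, this]
  refine ⟨L a b, (hiff _).mpr ((expansion_iff hb0 hc _).mpr (L_spec hb0 hab hc)), ?_⟩
  intro l hl
  exact L_unique hb0 hab hc ((expansion_iff hb0 hc _).mp ((hiff l).mp hl))

/-- **Cao's conjecture**: for every odd `p > 3` with `p ≡ 3 (mod 4)`, `N̄(p) ≥ N(p) ≥ 2`. -/
theorem result (p : ℕ) (hp : 3 < p) (hp4 : p % 4 = 3) :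
    (setM p).card ≤ (setMbar p).card ∧ 2 ≤ (setM p).card := by
  have h1 := Pool.Agent.Lib.MP_54f1ce_nt.halfSum_nonneg p hp4
  have h2 := card_diff hp4
  have h3 := one_le_card_setA hp hp4
  rw [card_setM hp hp4, card_setMbar hp hp4]
  constructor
  · have : ((setA p (-1)).card : ℤ) ≤ (setA p 1).card := by linarith
    have : (setA p (-1)).card ≤ (setA p 1).card := by exact_mod_cast this
    omega
  · omega

end Pool.Agent.Results.MP_54f1ce_nt.CaoInequality
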